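import Pool.Agent.H65.XR2.WFL

/-!
# Project XR2, row PRL: a rotation number `1/2`
-/

set_option autoImplicit false

open MeasureTheory Set Filter Topology Metric Asymptotics
open scoped Real ENNReal RealInnerProductSpace

namespace Pool.XR2

open Pool.Agent.H45.XR Pool.Agent.H45.XR.B3

/-- The direction from the right to the left tip. -/
theorem Phi_range {C : Set ℂ} (hC : Body C) {φ r l : ℝ} (hr : φ - π < r) (hr' : r < φ)
    (hl : φ < l) (hl' : l < φ + π) : φ < Phi C r l ∧ Phi C r l < φ + π := by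
  have hpi := Real.pi_pos
  rcases lt_trichotomy l (r + π) with h | h | h
  · obtain ⟨a1, a2⟩ := Phi_lt hC (by linarith) h
    constructor <;> linarith
  · have := Phi_eq hC r
    rw [← h] at this
    rw [this]
    constructor <;> linarith
  · obtain ⟨a1, a2⟩ := Phi_gt hC h (by linarith)
    constructor <;> linarith

theorem t_prl (flx : FLXStmt) (flb : FLBStmt) (rha : RHAStmt) : PRLStmt := by
  intro C φ₀ φ₁ p q hC hS0 hS1 h01 h10 hp hq hpq ht
  have hpi := Real.pi_pos
  obtain ⟨f0, -⟩ := flx C φ₀ hC hS0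
  obtain ⟨f1, -⟩ := flx C φ₁ hC hS1
  obtain ⟨-, b2, -, -, -, b6⟩ := flb C φ₀ hC hS0
  obtain ⟨r, r1, r2, r3, r4⟩ := f0.rt
  obtain ⟨l, l1, l2, l3, l4⟩ := f0.lt
  -- the tips
  have htip : ∀ x : ℝ, ∀ z ∈ C, Fx (fl C φ₀) x → tc φ₀ z = tc φ₀ (pt C x) → z = pt C x := by
    intro x z hz hx hzx
    have h1 := eq_add_of_tc_eq hzx
    obtain ⟨y, hy⟩ : ∃ y, y = yc φ₀ z - yc φ₀ (pt C x) := ⟨_, rfl⟩
    rw [← hy] at h1
    have h2 : y = 0 := (b2 x).1 hx y (by rw [← h1]; exact hz)
    rw [h1, h2]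
    simp
  have hpr : p = pt C r := htip r p hp ⟨0, by rw [r3]; simp⟩
    (le_antisymm (hpq _ (pt_mem hC r)).1 (r4 p hp))
  have hql : q = pt C l := htip l q hq ⟨-1, by rw [l3]; push_cast; ring⟩
    (le_antisymm (l4 q hq) (hpq _ (pt_mem hC l)).2)
  -- the chord of the tips
  have hrl : r < l := by linarith
  have hlr : l < r + 2 * π := by linarith
  obtain ⟨a1, a2⟩ := Phi_range hC r1 r2 l1 l2
  obtain ⟨s, hs, hs1⟩ := Phi_spec hC hrl hlr
  have hPhi : Phi C r l = φ₁ := by
    rw [hpr, hql] at ht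
    rw [hs1, tc_add, tc_mul, tc_e] at ht
    have h3 : Real.sin (Phi C r l - φ₁) = 0 := by
      have : s * Real.sin (Phi C r l - φ₁) = 0 := by linarith
      rcases mul_eq_zero.mp this with h | h
      · exact absurd h hs.ne'
      · exact h
    rw [Real.sin_eq_zero_iff_of_lt_of_lt (by linarith) (by linarith)] at h3
    linarith
  have hF1 : fl C φ₁ r = l := (f1.phi r l hrl hlr).2 hPhi
  have hF1' : fl C φ₁ l = r := by
    have := f1.inv r
    rwa [hF1] at this
  have hT1 : TT C φ₀ φ₁ r = l := by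
    unfold TT
    rw [r3, hF1]
  have hT2 : TT C φ₀ φ₁ l = r + 2 * π := by
    unfold TT
    rw [l3]
    have := f1.shift (-1) l
    push_cast at this
    rw [show l - 2 * π = l + -1 * (2 * π) by ring, this, hF1']
    ring
  have h2 : (TT C φ₀ φ₁)^[2] r = r + 2 * π * ((1 : ℤ) : ℝ) := by
    rw [Function.iterate_succ, Function.iterate_one, Function.comp_apply, hT1, hT2]
    push_cast
    ring
  have h3 := (rha _ (b6 φ₁ hS1).1).2.2.1 r 1 2 (by norm_num) h2
  unfold rot
  rw [h3]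
  norm_num

end Pool.XR2
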