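import Pool.Agent.H65.XR2.PRL
import Pool.Agent.H94.XR.F2

/-!
# Project XR2, row SMR: small rotation numbers
-/

set_option autoImplicit false

open MeasureTheory Set Filter Topology Metric Asymptotics
open scoped Real ENNReal RealInnerProductSpace

namespace Pool.XR2

open Pool.Agent.H45.XR Pool.Agent.H45.XR.B3

/-- **The level increases along the top.** -/
theorem IsFlip.lvl {C : Set ℂ} {φ : ℝ} {F : ℝ → ℝ} (hC : Body C) (hS : NoSeg C φ)
    (h : IsFlip C φ F) {r l : ℝ} (hr : φ - π < r ∧ r < φ ∧ F r = r)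
    (hl : φ < l ∧ l < φ + π ∧ F l = l - 2 * π) (hrm : ∀ z ∈ C, tc φ (pt C r) ≤ tc φ z) :
    StrictMonoOn (fun θ => tc φ (pt C θ)) (Icc r l) := by
  have hpi := Real.pi_pos
  have hin : ∀ θ, pt C θ ∈ C := pt_mem hC
  have hni : ∀ θ, pt C θ ∉ interior C := pt_notMem_interior hC
  have hinj : InjOn (fun θ => tc φ (pt C θ)) (Icc r l) := by
    have key : ∀ a ∈ Icc r l, ∀ b ∈ Icc r l, a < b → tc φ (pt C a) ≠ tc φ (pt C b) := by
      intro a ha b hb hab hT
      have hba : b < a + 2 * π := by linarith [ha.1, hb.2, hr.1, hl.2.1]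
      obtain ⟨z, hz, hz1⟩ := hS _ (hin a) _ (hin b) (pt_ne hC hab hba) hT
      rcases ha.1.eq_or_lt with h1 | h1
      · -- a tip
        obtain ⟨δ, hδ, -, hb'⟩ := push (d := -(Complex.I * e φ)) hz
        have h2 := hrm _ (interior_subset (hb' δ (abs_of_pos hδ).le))
        rw [h1, ← hz1] at h2
        have h3 : tc φ (z + (δ : ℂ) * -(Complex.I * e φ)) = tc φ z - δ := by
          have h4 : (δ : ℂ) * -(Complex.I * e φ) = ((δ : ℝ) : ℂ) * e (φ - π / 2) := by
            have h5 : e (φ - π / 2) = -(Complex.I * e φ) := by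
              unfold e
              push_cast
              rw [sub_mul, Complex.exp_sub]
              have : Complex.exp (↑π / 2 * Complex.I) = Complex.I := Complex.exp_pi_div_two_mul_I
              rw [this, Complex.div_I]
              ring
            rw [h5]
          rw [tc_add, h4, tc_mul, tc_e]
          have h6 : Real.sin (φ - π / 2 - φ) = -1 := by
            rw [show φ - π / 2 - φ = -(π / 2) by ring, Real.sin_neg, Real.sin_pi_div_two]
          rw [h6]
          ring
        linarith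
      · have h2 : F a < r := by
          have := h.anti h1
          rwa [hr.2.2] at this
        have h3 : l - 2 * π < F a := by
          have := h.anti (show a < l by linarith [hb.2])
          rwa [hl.2.2] at this
        refine three_pts hC (hin a) (hin b) (hin (F a)) (hni a) (hni b) (hni (F a)) hz hz1.symm
          (by rw [hz1]; exact hT.symm) (by rw [hz1]; exact h.line a) (pt_ne hC hab hba)
          (pt_ne hC (show F a < a by linarith) (by linarith [ha.2, hb.2])).symm
          (pt_ne hC (show F a < b by linarith [hb.1]) (by linarith [hb.2])).symm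
    intro a ha b hb hab
    rcases lt_trichotomy a b with h1 | h1 | h1
    · exact absurd hab (key a ha b hb h1)
    · exact h1
    · exact absurd hab.symm (key b hb a ha h1)
  exact (continuous_T hC φ).continuousOn.strictMonoOn_of_injOn_Icc (by linarith [hr.2.1, hl.1])
    (hrm _ (hin l)) hinj

theorem t_smr (flx : FLXStmt) (flb : FLBStmt) (rha : RHAStmt) (mnf : MNFStmt) : SMRStmt := by
  intro C φ θ D w hC hS0 hS1 hθ hθ2 hD hw hw0 hDw
  have hpi := Real.pi_pos
  obtain ⟨f0, -⟩ := flx C φ hC hS0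
  obtain ⟨f1, -⟩ := flx C (φ + θ) hC hS1
  obtain ⟨-, -, b3, -, -, b6⟩ := flb C φ hC hS0
  obtain ⟨c1, -⟩ := flb C (φ + θ) hC hS1
  obtain ⟨r, r1, r2, r3, r4⟩ := f0.rt
  obtain ⟨l, l1, l2, l3, l4⟩ := f0.lt
  have hdeg := (b6 (φ + θ) hS1).1
  have hsin : 0 < Real.sin θ := Real.sin_pos_of_pos_of_lt_pi hθ (by linarith)
  obtain ⟨τ, hτ⟩ : ∃ τ : ℝ → ℝ, τ = fun x => tc φ (pt C x) := ⟨_, rfl⟩
  have hτe : ∀ x, τ x = tc φ (pt C x) := fun x => by rw [hτ]
  have hmono : StrictMonoOn τ (Icc r l) := by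
    rw [hτ]
    exact f0.lvl hC hS0 ⟨r1, r2, r3⟩ ⟨l1, l2, l3⟩ r4
  -- the width
  obtain ⟨p, hp, q, hq, hpq⟩ := hw
  have hwl : w ≤ τ l - τ r := by
    rw [hτe, hτe]
    linarith [l4 q hq, r4 p hp]
  have hD0 : 0 < D := by
    have h1 := hD q hq p hp
    have h2 := Pool.Agent.H94.XR.abs_tc_le φ (q - p)
    rw [tc_sub] at h2
    have h3 := le_abs_self (tc φ q - tc φ p)
    linarith
  have hDs : 0 < D * Real.sin θ := by positivity
  -- a chord in the direction `φ + θ`
  have hstep : ∀ y, |τ (fl C (φ + θ) y) - τ y| ≤ D * Real.sin θ := by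
    intro y
    have h1 := eq_add_of_tc_eq (f1.line y)
    obtain ⟨s, hs⟩ : ∃ s, s = yc (φ + θ) (pt C (fl C (φ + θ) y)) - yc (φ + θ) (pt C y) :=
      ⟨_, rfl⟩
    rw [← hs] at h1
    have h2 := hD _ (pt_mem hC (fl C (φ + θ) y)) _ (pt_mem hC y)
    rw [hτe, hτe]
    rw [h1] at h2 ⊢
    rw [add_sub_cancel_left, norm_mul, Complex.norm_real, Real.norm_eq_abs] at h2
    have h3 : ‖e (φ + θ)‖ = 1 := by
      unfold e
      exact Complex.norm_exp_ofReal_mul_I _
    rw [h3, mul_one] at h2
    rw [tc_add, tc_mul, tc_e, add_sub_cancel_left, add_sub_cancel_left, abs_mul, abs_of_pos hsin]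
    exact mul_le_mul_of_nonneg_right h2 hsin.le
  have hT : ∀ x, TT C φ (φ + θ) x = fl C (φ + θ) (fl C φ x) := fun _ => rfl
  have hτ0 : ∀ x, τ (fl C φ x) = τ x := fun x => by
    rw [hτe, hτe]
    exact f0.line x
  have hτT : ∀ x, |τ (TT C φ (φ + θ) x) - τ x| ≤ D * Real.sin θ := by
    intro x
    have h1 := hstep (fl C φ x)
    rwa [hτ0] at h1
  have hTx : ∀ x, x ≤ TT C φ (φ + θ) x := by
    intro x
    have h1 := (mnf C φ (φ + θ) (fl C φ x) hC hS0 hS1 (by linarith)).1
    rwa [f0.inv] at h1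
  -- the direction of the tips
  have hrl : r < l := by linarith
  have hlr : l < r + 2 * π := by linarith
  obtain ⟨a1, a2⟩ := Phi_range hC r1 r2 l1 l2
  have hPhi : φ + θ < Phi C r l := by
    obtain ⟨s, hs, hs1⟩ := Phi_spec hC hrl hlr
    have h2 := hD _ (pt_mem hC l) _ (pt_mem hC r)
    have h3 : ‖e (Phi C r l)‖ = 1 := by
      unfold e
      exact Complex.norm_exp_ofReal_mul_I _
    have h4 : τ l - τ r = s * Real.sin (Phi C r l - φ) := by
      rw [hτe, hτe, hs1, tc_add, tc_mul, tc_e]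
      ring
    rw [hs1, add_sub_cancel_left, norm_mul, Complex.norm_real, Real.norm_eq_abs, h3, mul_one,
      abs_of_pos hs] at h2
    by_contra hcon
    push Not at hcon
    have h5 : Real.sin (Phi C r l - φ) ≤ Real.sin θ :=
      Real.sin_le_sin_of_le_of_le_pi_div_two (by linarith) (by linarith) (by linarith)
    have h6 : s * Real.sin (Phi C r l - φ) ≤ D * Real.sin θ :=
      mul_le_mul h2 h5 (Real.sin_pos_of_pos_of_lt_pi (by linarith) (by linarith)).le hD0.le
    linarith
  -- the flip of the right tip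
  have hFr2 : fl C (φ + θ) r ≤ r + 2 * π := by
    have h1 := (mnf C (φ + θ) (φ + π) r hC hS1 (noSeg_add_pi hS0) (by linarith)).1
    rw [b3 r, r3] at h1
    exact h1
  have hFr : fl C (φ + θ) r ≤ l := by
    by_contra hcon
    push Not at hcon
    have h1 : ∀ᶠ a in 𝓝 r, l < fl C (φ + θ) a :=
      continuousAt_const.eventually_lt c1.continuousAt hcon
    have h2 : ∀ᶠ a in 𝓝[>] r, l < fl C (φ + θ) a := h1.filter_mono nhdsWithin_le_nhds
    have h3 : ∀ᶠ a in 𝓝[>] r, a ∈ Ioo r l := Ioo_mem_nhdsGT hrl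
    obtain ⟨a, h4, h5⟩ := (h2.and h3).exists
    have h6 : fl C (φ + θ) a < fl C (φ + θ) r := f1.anti h5.1
    have h7 := (f1.phi a (fl C (φ + θ) a) (by linarith [h5.2]) (by linarith [h5.1])).1 rfl
    have h8 := Phi_mono hC hrl hlr (show a < fl C (φ + θ) a by linarith [h5.2])
      (by linarith [h5.1]) h5.1.le h4.le
    linarith
  have hFl : fl C (φ + θ) l ≤ r := by
    have h1 := f1.anti.antitone hFr
    rwa [f1.inv] at h1
  -- the preimage of the left tip
  obtain ⟨x, hx⟩ : ∃ x, x = fl C φ (fl C (φ + θ) l) := ⟨_, rfl⟩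
  have hTxl : TT C φ (φ + θ) x = l := by
    rw [hT, hx, f0.inv, f1.inv]
  have hxr : r ≤ x := by
    have h1 := f0.anti.antitone hFl
    rwa [r3, ← hx] at h1
  have hxl : x ≤ l := by
    have := hTx x
    rwa [hTxl] at this
  have hτx : τ l - D * Real.sin θ ≤ τ x := by
    have h1 := abs_le.1 (hτT x)
    rw [hTxl] at h1
    linarith [h1.2]
  have key : ∀ k : ℕ, k * (D * Real.sin θ) < τ l - τ r →
      (TT C φ (φ + θ))^[k] r ∈ Icc r l ∧
        τ ((TT C φ (φ + θ))^[k] r) ≤ τ r + k * (D * Real.sin θ) := by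
    intro k
    induction k with
    | zero =>
      intro _
      simp only [Function.iterate_zero, id_eq, Nat.cast_zero, zero_mul, add_zero, le_refl,
        and_true]
      exact ⟨le_rfl, hrl.le⟩
    | succ k ih =>
      intro hk
      push_cast at hk
      obtain ⟨g1, g2⟩ := ih (by linarith)
      rw [Function.iterate_succ_apply']
      have g3 : (TT C φ (φ + θ))^[k] r < x := by
        rw [← hmono.lt_iff_lt g1 ⟨hxr, hxl⟩]
        linarith
      have g4 : TT C φ (φ + θ) ((TT C φ (φ + θ))^[k] r) < l := by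
        have := hdeg.mono g3
        rwa [hTxl] at this
      refine ⟨⟨g1.1.trans (hTx _), g4.le⟩, ?_⟩
      have g5 := abs_le.1 (hτT ((TT C φ (φ + θ))^[k] r))
      push_cast
      linarith [g5.2]
  -- the number of steps
  obtain ⟨u, hu⟩ : ∃ u, u = w / (D * Real.sin θ) := ⟨_, rfl⟩
  have hu100 : 100 ≤ u := by
    rw [hu, le_div_iff₀ hDs]
    linarith
  have huw : u * (D * Real.sin θ) = w := by
    rw [hu]
    field_simp
  obtain ⟨k, hk⟩ : ∃ k : ℕ, k = ⌊u / 2⌋₊ := ⟨_, rfl⟩
  have hk1 : (k : ℝ) ≤ u / 2 := by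
    rw [hk]
    exact Nat.floor_le (by linarith)
  have hk2 : u / 2 < k + 1 := by
    rw [hk]
    exact Nat.lt_floor_add_one _
  have hk0 : 0 < k := by
    rcases Nat.eq_zero_or_pos k with h | h
    · rw [h] at hk2
      norm_num at hk2
      linarith
    · exact h
  have hk0' : (0 : ℝ) < k := by exact_mod_cast hk0
  have h1 := (key k (by nlinarith)).1.2
  have h2 := (rha _ hdeg).1 r 1 k hk0 (by push_cast; linarith)
  unfold rot
  refine h2.trans ?_
  have h3 : 4 * D * Real.sin θ / w = 4 / u := by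
    rw [hu]
    field_simp
  rw [h3, div_le_div_iff₀ hk0' (by linarith)]
  push_cast
  linarith

end Pool.XR2
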