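import Pool.Agent.H52.XR2.S1
import Pool.Agent.H65.XR.B3

/-!
# Project XR2, row WFL: the flips of `C`, `C'` and `C ∩ C'`
-/

set_option autoImplicit false

open MeasureTheory Set Filter Topology Metric Asymptotics
open scoped Real ENNReal RealInnerProductSpace

namespace Pool.XR2

open Pool.Agent.H45.XR Pool.Agent.H45.XR.B3

theorem IsFlip.shift {C : Set ℂ} {φ : ℝ} {F : ℝ → ℝ} (h : IsFlip C φ F) (n : ℤ) (x : ℝ) :
    F (x + n * (2 * π)) = F x - n * (2 * π) := by
  have hG : Function.Periodic (fun x => F x + x) (2 * π) := by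
    intro x
    show F (x + 2 * π) + (x + 2 * π) = F x + x
    rw [h.per]
    ring
  have := hG.zsmul n x
  simp only [zsmul_eq_mul] at this
  linarith

/-- A point which is not fixed is, up to the period and the flip, the left one of a pair. -/
theorem IsFlip.reduce {C : Set ℂ} {φ : ℝ} {F : ℝ → ℝ} (h : IsFlip C φ F) {x : ℝ} (hx : ¬ Fx F x) :
    ∃ n : ℤ, (x + n * (2 * π) < F (x + n * (2 * π)) ∧
      F (x + n * (2 * π)) < x + n * (2 * π) + 2 * π) ∨
      (F x + n * (2 * π) < F (F x + n * (2 * π)) ∧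
        F (F x + n * (2 * π)) < F x + n * (2 * π) + 2 * π) := by
  have hpi := Real.pi_pos
  have hP : (0 : ℝ) < 4 * π := by linarith
  obtain ⟨n, hn⟩ : ∃ n : ℤ, n = toIocDiv hP (-(2 * π)) (F x - x) := ⟨_, rfl⟩
  have hd : F x - x - n • (4 * π) ∈ Ioc (-(2 * π)) (-(2 * π) + 4 * π) := by
    rw [hn]
    exact sub_toIocDiv_zsmul_mem_Ioc hP (-(2 * π)) (F x - x)
  rw [zsmul_eq_mul] at hd
  obtain ⟨h1, h2⟩ := hd
  have h3 : F x - x - n * (4 * π) ≠ 0 := fun h0 => hx ⟨2 * n, by push_cast; linarith⟩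
  have h4 : F x - x - n * (4 * π) ≠ 2 * π := fun h0 => hx ⟨2 * n + 1, by push_cast; linarith⟩
  rcases lt_or_gt_of_ne h3 with h5 | h5
  · refine ⟨-n, Or.inr ?_⟩
    rw [h.shift, h.inv]
    push_cast
    constructor <;> linarith
  · refine ⟨n, Or.inl ?_⟩
    rw [h.shift]
    have h6 : F x - x - n * (4 * π) < 2 * π := lt_of_le_of_ne (by linarith) h4
    constructor <;> linarith

theorem rad_shift (C : Set ℂ) (n : ℤ) (x : ℝ) : rad C (x + n * (2 * π)) = rad C x := by
  have hp : Function.Periodic (rad C) (2 * π) := rad_periodic C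
  have := hp.zsmul n x
  simpa [zsmul_eq_mul] using this

/-- The flips of two bodies at a common chord. -/
theorem flip_core {C W : Set ℂ} {φ : ℝ} {F G : ℝ → ℝ} (hF : IsFlip C φ F) (hG : IsFlip W φ G)
    {x : ℝ} (hx : ¬ Fx G x) (h1 : rad C x = rad W x) (h2 : rad C (G x) = rad W (G x)) :
    F x = G x := by
  have key : ∀ θ : ℝ, rad C θ = rad W θ → rad C (G θ) = rad W (G θ) → θ < G θ →
      G θ < θ + 2 * π → F θ = G θ := by
    intro θ a1 a2 a3 a4
    have a5 := (hG.phi θ (G θ) a3 a4).1 rfl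
    refine (hF.phi θ (G θ) a3 a4).2 ?_
    unfold Phi at a5 ⊢
    rw [a1, a2]
    exact a5
  obtain ⟨n, ⟨h3, h4⟩ | ⟨h3, h4⟩⟩ := hG.reduce hx
  · have h5 := key _ (by rw [rad_shift, rad_shift, h1]) (by
      rw [hG.shift, show G x - n * (2 * π) = G x + ((-n : ℤ) : ℝ) * (2 * π) by push_cast; ring,
        rad_shift, rad_shift, h2]) h3 h4
    rw [hF.shift, hG.shift] at h5
    linarith
  · have h5 := key _ (by rw [rad_shift, rad_shift, h2]) (by
      rw [hG.shift, hG.inv, show x - n * (2 * π) = x + ((-n : ℤ) : ℝ) * (2 * π) by push_cast; ring,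
        rad_shift, rad_shift, h1]) h3 h4
    rw [hG.shift, hG.inv] at h5
    have h6 : F (F (G x + n * (2 * π))) = F (x - n * (2 * π)) := by rw [h5]
    rw [hF.inv, show x - n * (2 * π) = x + ((-n : ℤ) : ℝ) * (2 * π) by push_cast; ring,
      hF.shift] at h6
    push_cast at h6
    linarith

/-- The fixed points. -/
theorem IsFlip.fixed {C : Set ℂ} {φ : ℝ} {F : ℝ → ℝ} (h : IsFlip C φ F) {r l : ℝ}
    (hr : φ - π < r ∧ r < φ ∧ F r = r) (hl : φ < l ∧ l < φ + π ∧ F l = l - 2 * π) {x : ℝ}
    (hx : Fx F x) : ∃ n : ℤ, x = r + n * (2 * π) ∨ x = l + n * (2 * π) := by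
  have hpi := Real.pi_pos
  have hP : (0 : ℝ) < 2 * π := by linarith
  obtain ⟨n, hn⟩ : ∃ n : ℤ, n = toIcoDiv hP (l - 2 * π) x := ⟨_, rfl⟩
  have hd : x - n • (2 * π) ∈ Ico (l - 2 * π) (l - 2 * π + 2 * π) := by
    rw [hn]
    exact sub_toIcoDiv_zsmul_mem_Ico hP (l - 2 * π) x
  rw [zsmul_eq_mul] at hd
  obtain ⟨h1, h2⟩ := hd
  obtain ⟨k, hk⟩ := hx
  obtain ⟨y, hy⟩ : ∃ y, y = x - n * (2 * π) := ⟨_, rfl⟩
  rw [← hy] at h1 h2
  have hxy : x = y + n * (2 * π) := by rw [hy]; ring
  have hFl : F (l - 2 * π) = l := by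
    have := h.inv l
    rw [hl.2.2] at this
    exact this
  rcases h1.eq_or_lt with h3 | h3
  · refine ⟨n - 1, Or.inr ?_⟩
    rw [hxy, ← h3]
    push_cast
    ring
  · refine ⟨n, Or.inl ?_⟩
    have g1 : F y < l := by
      have := h.anti h3
      rwa [hFl] at this
    have g2 : l - 2 * π < F y := by
      have := h.anti (show y < l by linarith)
      rwa [hl.2.2] at this
    have g3 : F y = y + ((k + 2 * n : ℤ) : ℝ) * (2 * π) := by
      have h4 : F x = F y - n * (2 * π) := by rw [hxy, h.shift]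
      rw [hk] at h4
      push_cast
      linarith
    have g4 : (k + 2 * n : ℤ) = 0 := by
      have a1 : ((k + 2 * n : ℤ) : ℝ) < 1 := by
        by_contra hc
        push Not at hc
        nlinarith
      have a2 : (-1 : ℝ) < ((k + 2 * n : ℤ) : ℝ) := by
        by_contra hc
        push Not at hc
        nlinarith
      have b1 : (k + 2 * n : ℤ) < 1 := by exact_mod_cast a1
      have b2 : -1 < (k + 2 * n : ℤ) := by exact_mod_cast a2
      omega
    rw [g4] at g3
    have g5 : F y = y := by simpa using g3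
    have g6 : y = r := by
      rcases lt_trichotomy y r with h4 | h4 | h4
      · have := h.anti h4
        rw [hr.2.2, g5] at this
        linarith
      · exact h4
      · have := h.anti h4
        rw [hr.2.2, g5] at this
        linarith
    rw [hxy, g6]

theorem t_wfl (flx : FLXStmt) (flb : FLBStmt) : WFLStmt := by
  intro C C' φ hC hC' hX hS
  have hpi := Real.pi_pos
  have hW := body_inter hC hC'
  have hSW := noSeg_inter hC hC' hX hS
  have hS' : NoSeg C' φ := by
    intro p hp q hq hpq ht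
    -- a segment of `C` on the same line
    have hlen : 0 < volume {s : ℝ | p + s * e φ ∈ C'} := by
      have h1 : q = p + ((yc φ q - yc φ p : ℝ) : ℂ) * e φ := eq_add_of_tc_eq ht.symm
      obtain ⟨y, hy⟩ : ∃ y, y = yc φ q - yc φ p := ⟨_, rfl⟩
      rw [← hy] at h1
      have hy0 : y ≠ 0 := by
        rintro rfl
        apply hpq
        rw [h1]
        simp
      have h2 : uIcc 0 y ⊆ {s : ℝ | p + s * e φ ∈ C'} := by
        intro s hs
        have hp0 : (0 : ℝ) ∈ {s : ℝ | p + s * e φ ∈ C'} := by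
          show p + ((0 : ℝ) : ℂ) * e φ ∈ C'
          simpa using hp
        have hyy : y ∈ {s : ℝ | p + s * e φ ∈ C'} := by
          show p + (y : ℂ) * e φ ∈ C'
          rw [← h1]
          exact hq
        have hcv : Convex ℝ {s : ℝ | p + s * e φ ∈ C'} := by
          intro a ha b hb u v hu hv huv
          show p + ((u • a + v • b : ℝ) : ℂ) * e φ ∈ C'
          have := hC'.conv ha hb hu hv huv
          convert this using 1
          simp only [Complex.real_smul, smul_eq_mul, Complex.ofReal_add, Complex.ofReal_mul]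
          have h3 : (u : ℂ) + v = 1 := by exact_mod_cast huv
          linear_combination -p * h3
        exact hcv.ordConnected.uIcc_subset hp0 hyy hs
      have h3 : 0 < volume (uIcc 0 y) := by
        rw [uIcc, Real.volume_Icc]
        simp only [ENNReal.ofReal_pos]
        have := min_lt_max.2 hy0.symm
        linarith
      exact h3.trans_le (measure_mono h2)
    rw [← hX p] at hlen
    have h1 : ∃ a ∈ {s : ℝ | p + s * e φ ∈ C}, ∃ b ∈ {s : ℝ | p + s * e φ ∈ C}, a ≠ b := by
      by_contra hcon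
      push Not at hcon
      have h2 : {s : ℝ | p + s * e φ ∈ C}.Subsingleton := fun a ha b hb => hcon a ha b hb
      rw [h2.measure_zero] at hlen
      exact lt_irrefl _ hlen
    obtain ⟨a, ha, b, hb, hab⟩ := h1
    obtain ⟨z, hz, hz1⟩ := hS _ ha _ hb (by
      intro h2
      apply hab
      have h3 : ((a : ℂ) - b) * e φ = 0 := by linear_combination h2
      rcases mul_eq_zero.mp h3 with h4 | h4
      · have : (a : ℂ) = b := by linear_combination h4
        exact_mod_cast this
      · exact absurd h4 (e_ne_zero _)) (by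
      rw [tc_add, tc_mul, tc_e_self, tc_add, tc_mul, tc_e_self]
      ring)
    have hz2 : tc φ z = tc φ p := by
      rw [hz1, tc_add, tc_mul, tc_e_self]
      ring
    obtain ⟨z', hz', hz3⟩ := meets hC hC' hX hz hp hz2.symm
    exact ⟨z', hz', hz3.trans hz2⟩
  obtain ⟨fW, -⟩ := flx (C ∩ C') φ hW hSW
  obtain ⟨fC, -⟩ := flx C φ hC hS
  obtain ⟨fC', -⟩ := flx C' φ hC' hS'
  obtain ⟨bW1, bW2, -, -, -, -⟩ := flb (C ∩ C') φ hW hSW
  obtain ⟨bC1, bC2, -, -, -, -⟩ := flb C φ hC hS
  have hmem : ∀ x ∈ EE C C', fl (C ∩ C') φ x ∈ EE C C' := fun x hx =>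
    flip_mem hC hC' hX hS hx (fW.line x)
  have hrC : ∀ x ∈ EE C C', rad C x = rad (C ∩ C') x := by
    intro x hx
    have hx' : rad C x = rad C' x := hx
    rw [rad_inter hC hC', hx', min_self]
  have hrC' : ∀ x ∈ EE C C', rad C' x = rad (C ∩ C') x := by
    intro x hx
    have hx' : rad C x = rad C' x := hx
    rw [rad_inter hC hC', hx', min_self]
  have h5 : ∀ x ∈ EE C C', ¬ Fx (fl (C ∩ C') φ) x → fl C φ x = fl (C ∩ C') φ x ∧
      fl C' φ x = fl (C ∩ C') φ x := fun x hx hn =>
    ⟨flip_core fC fW hn (hrC x hx) (hrC _ (hmem x hx)),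
      flip_core fC' fW hn (hrC' x hx) (hrC' _ (hmem x hx))⟩
  refine ⟨hW, hSW, hS', hmem, h5, ?_, ?_, ?_, ?_⟩
  · intro x hx
    exact tip_mem hC hC' hX ((bW2 x).1 hx)
  · intro x hx hf
    have hpt := (pt_inter hC hC' hx).1
    have hfW : Fx (fl (C ∩ C') φ) x := (bW2 x).2 fun s hs => by
      rw [hpt] at hs
      exact (bC2 x).1 hf s hs.1
    refine ⟨hfW, ?_⟩
    obtain ⟨r, r1, r2, r3, -⟩ := fC.rt
    obtain ⟨l, l1, l2, l3, -⟩ := fC.lt
    obtain ⟨r', r1', r2', r3', -⟩ := fW.rt
    obtain ⟨l', l1', l2', l3', -⟩ := fW.lt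
    have hint : ∀ {a b : ℝ} {n k : ℤ}, a + n * (2 * π) = b + k * (2 * π) → |a - b| < 2 * π →
        n = k := by
      intro a b n k h1 h2
      have h3 := abs_lt.1 h2
      have a1 : ((k - n : ℤ) : ℝ) < 1 := by
        by_contra hc
        push Not at hc
        push_cast at hc
        nlinarith
      have a2 : (-1 : ℝ) < ((k - n : ℤ) : ℝ) := by
        by_contra hc
        push Not at hc
        push_cast at hc
        nlinarith
      have b1 : (k - n : ℤ) < 1 := by exact_mod_cast a1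
      have b2 : -1 < (k - n : ℤ) := by exact_mod_cast a2
      omega
    obtain ⟨n, hn⟩ := fC.fixed ⟨r1, r2, r3⟩ ⟨l1, l2, l3⟩ hf
    obtain ⟨k, hk⟩ := fW.fixed ⟨r1', r2', r3'⟩ ⟨l1', l2', l3'⟩ hfW
    have hsin : ∀ a : ℝ, ∀ n : ℤ, Real.sin (a + n * (2 * π) - φ) = Real.sin (a - φ) := by
      intro a n
      rw [show a + n * (2 * π) - φ = a - φ + n * (2 * π) by ring]
      exact Real.sin_add_int_mul_two_pi _ n
    have hneg : ∀ a : ℝ, φ - π < a → a < φ → Real.sin (a - φ) < 0 := fun a h1 h2 =>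
      Real.sin_neg_of_neg_of_neg_pi_lt (by linarith) (by linarith)
    have hpos : ∀ a : ℝ, φ < a → a < φ + π → 0 < Real.sin (a - φ) := fun a h1 h2 =>
      Real.sin_pos_of_pos_of_lt_pi (by linarith) (by linarith)
    rcases hn with hn | hn <;> rcases hk with hk | hk
    · have h1 : n = k := hint (hn.symm.trans hk) (by rw [abs_lt]; constructor <;> linarith)
      have h2 : r = r' := by
        rw [hn, h1] at hk
        linarith
      conv_lhs => rw [hn, fC.shift, r3]
      conv_rhs => rw [hk, fW.shift, r3']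
      rw [h1, h2]
    · exfalso
      have h1 := hsin r n
      have h2 := hsin l' k
      rw [← hn] at h1
      rw [← hk] at h2
      linarith [hneg r r1 r2, hpos l' l1' l2']
    · exfalso
      have h1 := hsin l n
      have h2 := hsin r' k
      rw [← hn] at h1
      rw [← hk] at h2
      linarith [hneg r' r1' r2', hpos l l1 l2]
    · have h1 : n = k := hint (hn.symm.trans hk) (by rw [abs_lt]; constructor <;> linarith)
      have h2 : l = l' := by
        rw [hn, h1] at hk
        linarith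
      conv_lhs => rw [hn, fC.shift, l3]
      conv_rhs => rw [hk, fW.shift, l3']
      rw [h1, h2]
  · -- crossing tips are isolated
    intro x hx hf hn
    obtain ⟨k, hk⟩ := hf
    have hne : fl C φ x ≠ fl (C ∩ C') φ x := fun h => hn ⟨k, by rw [h, hk]⟩
    have hc1 : ∀ᶠ y in 𝓝 x, fl C φ y - fl (C ∩ C') φ y ≠ 0 :=
      ((bC1.sub bW1).continuousAt).eventually_ne (sub_ne_zero.2 hne)
    have hc2 : ∀ᶠ y in 𝓝 x, |(fl (C ∩ C') φ y - y) - (fl (C ∩ C') φ x - x)| < 2 * π := by
      have h1 : ContinuousAt (fun y => |(fl (C ∩ C') φ y - y) - (fl (C ∩ C') φ x - x)|) x :=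
        ((bW1.continuousAt.sub continuousAt_id).sub continuousAt_const).abs
      refine h1.eventually_lt continuousAt_const ?_
      simp only [sub_self, abs_zero]
      linarith
    obtain ⟨δ, hδ, hb⟩ := Metric.eventually_nhds_iff.1 (hc1.and hc2)
    refine ⟨δ, hδ, fun y hy hyx => ?_⟩
    obtain ⟨g1, g2⟩ := hb (show dist y x < δ by rwa [Real.dist_eq])
    have hfy : Fx (fl (C ∩ C') φ) y := by
      by_contra hc
      exact g1 (sub_eq_zero.2 (h5 y hy hc).1)
    obtain ⟨j, hj⟩ := hfy
    rw [hj, hk] at g2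
    have e1 : y + j * (2 * π) - y - (x + k * (2 * π) - x) = ((j - k : ℤ) : ℝ) * (2 * π) := by
      push_cast
      ring
    rw [e1, abs_mul, abs_of_pos (show (0 : ℝ) < 2 * π by linarith)] at g2
    have h6 : |((j - k : ℤ) : ℝ)| < 1 := by
      by_contra hc
      push Not at hc
      nlinarith
    have h7 : j - k = 0 := by
      have h8 : |(j - k : ℤ)| < 1 := by exact_mod_cast h6
      exact Int.abs_lt_one_iff.1 h8
    have h9 : j = k := by omega
    rw [h9] at hj
    rcases lt_trichotomy y x with h | h | h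
    · have := fW.anti h
      rw [hj, hk] at this
      linarith
    · exact h
    · have := fW.anti h
      rw [hj, hk] at this
      linarith
  · intro θ hθ
    have hV := sameX_volume hC.cpt hC'.cpt hX
    have hP : (0:ℝ) < 2 * π := by linarith
    have hper : Function.Periodic (Psi C C') (2 * π) := Psi_periodic hC hC' hV
    obtain ⟨n, hn⟩ : ∃ n : ℤ, n = toIcoDiv hP θ (fl (C ∩ C') φ θ) := ⟨_, rfl⟩
    have hb : fl (C ∩ C') φ θ - n • (2 * π) ∈ Ico θ (θ + 2 * π) := by
      rw [hn]
      exact sub_toIcoDiv_zsmul_mem_Ico hP θ _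
    have h1 : Psi C C' (fl (C ∩ C') φ θ - n • (2 * π)) = Psi C C' (fl (C ∩ C') φ θ) :=
      hper.sub_zsmul_eq n
    rw [← h1]
    have hbE : fl (C ∩ C') φ θ - n • (2 * π) ∈ EE C C' := by
      have := (EE_int C C' (-n)).mpr (hmem θ hθ)
      convert this using 1
      rw [zsmul_eq_mul]
      push_cast
      ring
    have htc : tc φ (pt C (fl (C ∩ C') φ θ)) = tc φ (pt C θ) := by
      rw [← (pt_inter hC hC' hθ).1, ← (pt_inter hC hC' (hmem θ hθ)).1]
      exact fW.line θ
    rcases hb.1.eq_or_lt with h | h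
    · rw [← h]
    · refine (Psi_chord hC hC' hX hθ hbE h hb.2 ?_).symm
      have hp : Function.Periodic (pt C) (2 * π) := pt_periodic C
      rw [hp.sub_zsmul_eq n]
      exact htc.symm

end Pool.XR2
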